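import Pool.Agent.H581Z.Ex3

/-!
# Axiom A, no cycles, dimension three: trivial centralizers contain no open dense set

All definitions are in `Pool/Agent/H581Z/Defs.lean`.

Idea.  Take a Morse-Smale diffeomorphism of `𝕋^3` with a source whose strongest eigenvalues are a
non-real pair, a sink whose strongest eigenvalues are a non-real pair, and an orbit from the source
to the sink.  This is an open condition.  The strong unstable plane and the strong stable plane meet
along a line at a point of such an orbit.  Along the orbit of a small wandering ball one inserts, by
a `C^1`-small perturbation, a `C^1` action of the affine group of the line tangent to the identity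
at the ends of an interval in the direction of that line; the translations give a diffeomorphism
supported in the orbit of the ball which commutes with the perturbed map.
-/

namespace Pool.Agent.Results.MP_95f3db_an.ANoOpenDense

open Pool.Agent.H581Z

theorem result : ¬ ∃ U ⊆ {f : Diff1 3 | AxiomA f ∧ NoCycles f}, IsOpen U ∧
    {f : Diff1 3 | AxiomA f ∧ NoCycles f} ⊆ closure U ∧ ∀ f ∈ U, TrivCent f := by
  obtain ⟨f0, h1, h2, h3⟩ := example3
  exact no_open_dense (f0 := f0) ⟨h1, h2⟩ h3

end Pool.Agent.Results.MP_95f3db_an.ANoOpenDense
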